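import Pool.Agent.Q52.BkWalk

/-!
# The arithmetic Kakeya conjecture for sets without short additive relations

`A ⊆ ℤ × ℤ` is arbitrary, only its set of differences `π_{-1}(A)` is restricted: it contains a large
subset all of whose sums of `k` elements are different (a `B_k` set). Then the inequality of the
conjecture holds with the exponent `1 + 1 / k`, and any two slopes (different from `-1` and from each
other) are enough. This is the opposite extreme of the sets with additive structure.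

Proof: the points of `A` are the edges of a bipartite graph, whose vertices are the fibres of the two
projections. A closed walk in this graph gives an additive relation between its edges, so the graph
has no cycle of length at most `2 k`, and Moore's bound applies.
-/

set_option autoImplicit false

open Finset

namespace Pool.Agent.Results.MP_169869_co.FewRelations

/-- the value of the projection with slope `r` (`none` is the slope `∞`) -/
def val : Option ℚ → ℤ × ℤ → ℚ
  | none, z => (z.2 : ℚ)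
  | some r, z => (z.1 : ℚ) + r * (z.2 : ℚ)

/-- the projection `π_r(A)` (`none` is the slope `∞`) -/
def proj (r : Option ℚ) (A : Finset (ℤ × ℤ)) : Finset ℚ := A.image (val r)

/-- all sums of `k` elements of `A` (with repetitions) are different: `A` is a `B_k` set -/
def SumsDiffer {G : Type*} [AddCommGroup G] (k : ℕ) (A : Set G) : Prop :=
  ∀ s t : Multiset G, s.card = k → t.card = k → (∀ x ∈ s, x ∈ A) → (∀ x ∈ t, x ∈ A) →
    s.sum = t.sum → s = t

/-- the larger one of the two projections with slopes `r` and `s` -/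
def larger (r s : Option ℚ) (A : Finset (ℤ × ℤ)) : ℕ := max (proj r A).card (proj s A).card

/-- the projection as a homomorphism -/
def hom (r : Option ℚ) : ℤ × ℤ →+ ℚ where
  toFun := val r
  map_zero' := by rcases r with _ | r <;> simp [val]
  map_add' x y := by
    rcases r with _ | r
    · simp [val]
    · simp only [val, Prod.fst_add, Prod.snd_add, Int.cast_add]
      ring

lemma hom_inj {r s : Option ℚ} (hrs : r ≠ s) (x : ℤ × ℤ) (h1 : hom r x = 0) (h2 : hom s x = 0) :
    x = 0 := by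
  change val r x = 0 at h1
  change val s x = 0 at h2
  have hy : (x.2 : ℚ) = 0 ∧ (x.1 : ℚ) = 0 := by
    rcases r with _ | r <;> rcases s with _ | s
    · exact absurd rfl hrs
    · simp only [val] at h1 h2
      rw [h1, mul_zero, add_zero] at h2
      exact ⟨h1, h2⟩
    · simp only [val] at h1 h2
      rw [h2, mul_zero, add_zero] at h1
      exact ⟨h2, h1⟩
    · simp only [val] at h1 h2
      have h3 : (r - s) * (x.2 : ℚ) = 0 := by linear_combination h1 - h2
      have h4 : r - s ≠ 0 := by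
        intro h
        exact hrs (by rw [sub_eq_zero.1 h])
      have h5 := (mul_eq_zero.1 h3).resolve_left h4
      rw [h5, mul_zero, add_zero] at h1
      exact ⟨h5, h1⟩
  ext
  · exact_mod_cast hy.2
  · exact_mod_cast hy.1

lemma rpow_floor {N k : ℕ} (hk : 1 ≤ k) :
    N < (⌊(N : ℝ) ^ (1 / (k : ℝ))⌋₊ + 1) ^ k := by
  have h0 : (0:ℝ) ≤ (N : ℝ) ^ (1 / (k : ℝ)) := by positivity
  have h1 := Nat.lt_floor_add_one ((N : ℝ) ^ (1 / (k : ℝ)))
  have h2 : ((N : ℝ) ^ (1 / (k : ℝ))) ^ k = N := by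
    rw [← Real.rpow_natCast, ← Real.rpow_mul (Nat.cast_nonneg _), one_div,
      inv_mul_cancel₀ (by positivity), Real.rpow_one]
  have h3 : ((N : ℝ) ^ (1 / (k : ℝ))) ^ k < ((⌊(N : ℝ) ^ (1 / (k : ℝ))⌋₊ : ℝ) + 1) ^ k :=
    pow_lt_pow_left₀ h1 h0 (by omega)
  rw [h2] at h3
  exact_mod_cast h3

/-- sets without relations -/
lemma main {r s : Option ℚ} (hrs : r ≠ s) {k : ℕ} (hk : 1 ≤ k) (A : Finset (ℤ × ℤ))
    (hA : SumsDiffer k (A : Set (ℤ × ℤ))) :
    (A.card : ℝ) ≤ 4 * (larger r s A : ℝ) ^ (1 + 1 / (k : ℝ)) := by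
  rcases A.eq_empty_or_nonempty with rfl | hne
  · simp only [card_empty, Nat.cast_zero]
    positivity
  set N := larger r s A with hN
  have hN1 : 1 ≤ N := by
    have : 0 < (proj r A).card := card_pos.2 (hne.image _)
    exact this.trans_le (le_max_left _ _)
  have h := Pool.Agent.Q52.Bk.card_le (hom r) (hom s) (hom_inj hrs) hk
    (A := A) (fun a b ha hb h1 h2 h3 => hA a b ha hb h1 h2 h3) (N := N)
    (le_max_left _ _) (le_max_right _ _) (rpow_floor (N := N) hk)
  have h1 : (1:ℝ) ≤ (N : ℝ) ^ (1 / (k : ℝ)) :=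
    Real.one_le_rpow (by exact_mod_cast hN1) (by positivity)
  have h2 := Nat.floor_le (show (0:ℝ) ≤ (N : ℝ) ^ (1 / (k : ℝ)) by positivity)
  have hNpos : (0:ℝ) < N := by exact_mod_cast hN1
  calc (A.card : ℝ) ≤ ((2 * (⌊(N : ℝ) ^ (1 / (k : ℝ))⌋₊ + 1) * N : ℕ) : ℝ) := by exact_mod_cast h
    _ = 2 * ((⌊(N : ℝ) ^ (1 / (k : ℝ))⌋₊ : ℝ) + 1) * N := by push_cast; ring
    _ ≤ 2 * ((N : ℝ) ^ (1 / (k : ℝ)) + (N : ℝ) ^ (1 / (k : ℝ))) * N := by gcongr
    _ = 4 * (N : ℝ) ^ (1 + 1 / (k : ℝ)) := by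
        rw [Real.rpow_add hNpos, Real.rpow_one]; ring

/-- only the differences are restricted -/
lemma main' {r s : Option ℚ} (hrs : r ≠ s) {k : ℕ} (hk : 1 ≤ k) (A : Finset (ℤ × ℤ))
    (D : Finset ℚ) (hDA : D ⊆ proj (some (-1)) A) (hD : SumsDiffer k (D : Set ℚ)) :
    (D.card : ℝ) ≤ 4 * (larger r s A : ℝ) ^ (1 + 1 / (k : ℝ)) := by
  classical
  have hex : ∀ d : ℚ, ∃ a : ℤ × ℤ, d ∈ D → a ∈ A ∧ val (some (-1)) a = d := by
    intro d
    by_cases hd : d ∈ D
    · obtain ⟨a, ha, hav⟩ := mem_image.1 (hDA hd)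
      exact ⟨a, fun _ => ⟨ha, hav⟩⟩
    · exact ⟨0, fun h => absurd h hd⟩
  choose g hg using hex
  have hgi : Set.InjOn g D := by
    intro x hx y hy hxy
    have := (hg x hx).2
    rw [hxy, (hg y hy).2] at this
    exact this.symm
  have hBA : D.image g ⊆ A := by
    intro a ha
    obtain ⟨d, hd, rfl⟩ := mem_image.1 ha
    exact (hg d hd).1
  have hgv : ∀ b ∈ D.image g, g (val (some (-1)) b) = b ∧ val (some (-1)) b ∈ D := by
    intro b hb
    obtain ⟨d, hd, rfl⟩ := mem_image.1 hb
    rw [(hg d hd).2]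
    exact ⟨rfl, hd⟩
  have hB : SumsDiffer k ((D.image g : Finset (ℤ × ℤ)) : Set (ℤ × ℤ)) := by
    intro u v hu hv huB hvB huv
    have h1 : u.map (hom (some (-1))) = v.map (hom (some (-1))) := by
      refine hD _ _ (by rw [Multiset.card_map, hu]) (by rw [Multiset.card_map, hv]) ?_ ?_ ?_
      · intro x hx
        obtain ⟨b, hb, rfl⟩ := Multiset.mem_map.1 hx
        exact (hgv b (huB b hb)).2
      · intro x hx
        obtain ⟨b, hb, rfl⟩ := Multiset.mem_map.1 hx
        exact (hgv b (hvB b hb)).2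
      · rw [← map_multiset_sum, ← map_multiset_sum, huv]
    have h2 : ∀ w : Multiset (ℤ × ℤ), (∀ x ∈ w, x ∈ ((D.image g : Finset (ℤ × ℤ)) : Set (ℤ × ℤ))) →
        (w.map (hom (some (-1)))).map g = w := by
      intro w hw
      rw [Multiset.map_map]
      conv_rhs => rw [← Multiset.map_id w]
      exact Multiset.map_congr rfl fun x hx => (hgv x (hw x hx)).1
    rw [← h2 u huB, ← h2 v hvB, h1]
  have h3 := main hrs hk _ hB
  rw [card_image_of_injOn hgi] at h3
  refine h3.trans ?_
  have h4 : larger r s (D.image g) ≤ larger r s A :=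
    max_le_max (card_le_card (image_subset_image hBA)) (card_le_card (image_subset_image hBA))
  have h5 : (larger r s (D.image g) : ℝ) ≤ larger r s A := by exact_mod_cast h4
  gcongr

/-- the inequality of the conjecture -/
lemma conj {r s : Option ℚ} (hrs : r ≠ s) {ε : ℝ} (hε : 0 < ε) (hε1 : ε ≤ 1) {k : ℕ}
    (hk : 4 ≤ ε * k) (A : Finset (ℤ × ℤ)) (D : Finset ℚ) (hDA : D ⊆ proj (some (-1)) A)
    (hD : SumsDiffer k (D : Set ℚ))
    (hlarge : ((proj (some (-1)) A).card : ℝ) ^ (1 - ε / 4) ≤ D.card) :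
    ((proj (some (-1)) A).card : ℝ) ≤ 7 * (larger r s A : ℝ) ^ (1 + ε) := by
  have hk0 : (0:ℝ) < k := by
    rcases Nat.eq_zero_or_pos k with h | h
    · rw [h] at hk
      norm_num at hk
    · exact_mod_cast h
  have hk1 : 1 ≤ k := by exact_mod_cast hk0
  rcases A.eq_empty_or_nonempty with rfl | hne
  · simp only [proj, image_empty, card_empty, Nat.cast_zero]
    positivity
  set P : ℝ := ((proj (some (-1)) A).card : ℝ) with hP
  set M : ℝ := (larger r s A : ℝ) with hM
  have hM1 : 1 ≤ M := by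
    have : 0 < (proj r A).card := card_pos.2 (hne.image _)
    rw [hM]
    exact_mod_cast (this.trans_le (le_max_left _ _) : 0 < larger r s A)
  have hP0 : 0 ≤ P := Nat.cast_nonneg _
  have h1 := hlarge.trans (main' hrs hk1 A D hDA hD)
  have h2 : 1 / (k : ℝ) ≤ ε / 4 := by
    rw [div_le_div_iff₀ hk0 (by norm_num)]
    linarith
  have h3 : P ^ (1 - ε / 4) ≤ 4 * M ^ (1 + ε / 4) :=
    h1.trans (by
      have := Real.rpow_le_rpow_of_exponent_le hM1 (show 1 + 1 / (k : ℝ) ≤ 1 + ε / 4 by linarith)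
      linarith)
  have he : 0 < 1 - ε / 4 := by linarith
  have h4 : P = (P ^ (1 - ε / 4)) ^ (1 / (1 - ε / 4)) := by
    rw [← Real.rpow_mul hP0, mul_one_div, div_self he.ne', Real.rpow_one]
  rw [h4]
  have hexp1 : 1 / (1 - ε / 4) ≤ 4 / 3 := by
    rw [div_le_div_iff₀ he (by norm_num)]
    linarith
  have hexp2 : (1 + ε / 4) * (1 / (1 - ε / 4)) ≤ 1 + ε := by
    rw [mul_one_div, div_le_iff₀ he]
    nlinarith
  calc (P ^ (1 - ε / 4)) ^ (1 / (1 - ε / 4)) ≤ (4 * M ^ (1 + ε / 4)) ^ (1 / (1 - ε / 4)) :=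
        Real.rpow_le_rpow (Real.rpow_nonneg hP0 _) h3 (one_div_nonneg.2 he.le)
    _ = 4 ^ (1 / (1 - ε / 4)) * M ^ ((1 + ε / 4) * (1 / (1 - ε / 4))) := by
        rw [Real.mul_rpow (by norm_num) (Real.rpow_nonneg (by linarith) _),
          ← Real.rpow_mul (by linarith)]
    _ ≤ (4:ℝ) ^ ((4:ℝ) / 3) * M ^ (1 + ε) := by
        refine mul_le_mul (Real.rpow_le_rpow_of_exponent_le (by norm_num) hexp1)
          (Real.rpow_le_rpow_of_exponent_le hM1 hexp2) (Real.rpow_nonneg (by linarith) _)
          (Real.rpow_nonneg (by norm_num) _)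
    _ ≤ 7 * M ^ (1 + ε) := by
        refine mul_le_mul_of_nonneg_right ?_ (Real.rpow_nonneg (by linarith) _)
        have h5 : ((4:ℝ) ^ ((4:ℝ) / 3)) ^ 3 = 256 := by
          rw [← Real.rpow_natCast, ← Real.rpow_mul (by norm_num),
            show (4:ℝ) / 3 * ((3:ℕ):ℝ) = ((4:ℕ):ℝ) by norm_num, Real.rpow_natCast]
          norm_num
        refine le_of_pow_le_pow_left₀ (n := 3) (by norm_num) (by norm_num) ?_
        rw [h5]
        norm_num

/-! ### two slopes are not better for `k = 2` -/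

/-- a number with different sums of two -/
def code (K n : ℕ) : ℤ := n + K * (n : ℤ) ^ 2

lemma code_sum {K a b c d : ℕ} (ha : a + b < K) (hc : c + d < K)
    (h : code K a + code K b = code K c + code K d) : (a = c ∧ b = d) ∨ (a = d ∧ b = c) := by
  have h1 : (a + b) + K * (a ^ 2 + b ^ 2) = (c + d) + K * (c ^ 2 + d ^ 2) := by
    have : (((a + b) + K * (a ^ 2 + b ^ 2) : ℕ) : ℤ) = (((c + d) + K * (c ^ 2 + d ^ 2) : ℕ) : ℤ) := by
      unfold code at h
      push_cast
      linarith
    exact_mod_cast this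
  have h2 : a + b = c + d := by
    have := congrArg (· % K) h1
    simp only [Nat.add_mul_mod_self_left] at this
    rwa [Nat.mod_eq_of_lt ha, Nat.mod_eq_of_lt hc] at this
  have h3 : a ^ 2 + b ^ 2 = c ^ 2 + d ^ 2 := by
    rw [h2] at h1
    exact Nat.eq_of_mul_eq_mul_left (by omega) (Nat.add_left_cancel h1)
  have h4 : ((a : ℤ) - c) * ((a : ℤ) - d) = 0 := by
    have e2 : (a : ℤ) + b = c + d := by exact_mod_cast h2
    have e3 : (a : ℤ) ^ 2 + b ^ 2 = c ^ 2 + d ^ 2 := by exact_mod_cast h3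
    have e4 : (b : ℤ) = c + d - a := by linarith
    rw [e4] at e3
    nlinarith
  rcases mul_eq_zero.1 h4 with h | h
  · left
    have : a = c := by omega
    exact ⟨this, by omega⟩
  · right
    have : a = d := by omega
    exact ⟨this, by omega⟩

/-- the number of a pair of residues -/
def num {p : ℕ} (x : ZMod p × ZMod p) : ℕ := x.1.val + p * x.2.val

lemma num_lt {p : ℕ} [NeZero p] (x : ZMod p × ZMod p) : num x < p ^ 2 := by
  have h1 := x.1.val_lt
  have h2 := x.2.val_lt
  unfold num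
  nlinarith

lemma num_inj {p : ℕ} [NeZero p] : Function.Injective (num : ZMod p × ZMod p → ℕ) := by
  intro x y h
  unfold num at h
  have h1 : x.1.val = y.1.val := by
    have := congrArg (· % p) h
    simp only [Nat.add_mul_mod_self_left] at this
    rwa [Nat.mod_eq_of_lt x.1.val_lt, Nat.mod_eq_of_lt y.1.val_lt] at this
  have h2 : x.2.val = y.2.val := by
    rw [h1] at h
    exact Nat.eq_of_mul_eq_mul_left (NeZero.pos p) (Nat.add_left_cancel h)
  exact Prod.ext (ZMod.val_injective p h1) (ZMod.val_injective p h2)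

/-- the point of `ℤ ^ 2` of a point `x` and the line through it with slope `a` and intercept `b` -/
def flag {p : ℕ} (w : ZMod p × ZMod p × ZMod p) : ℤ × ℤ :=
  (code (2 * p ^ 2) (num (w.1, w.2.1 * w.1 + w.2.2)), code (2 * p ^ 2) (num (w.2.1, w.2.2)))

lemma code_inj {K a b : ℕ} (h : code K a = code K b) : a = b := by
  unfold code at h
  have h1 : ((a : ℤ) - b) * (1 + K * ((a : ℤ) + b)) = 0 := by linear_combination h
  rcases mul_eq_zero.1 h1 with h | h
  · omega
  · exfalso
    have : (0 : ℤ) ≤ K * ((a : ℤ) + b) := by positivity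
    linarith

lemma sharp (p : ℕ) (hp : p.Prime) : ∃ A : Finset (ℤ × ℤ), SumsDiffer 2 (A : Set (ℤ × ℤ)) ∧
    A.card = p ^ 3 ∧ (proj (some 0) A).card ≤ p ^ 2 ∧ (proj none A).card ≤ p ^ 2 := by
  classical
  have : Fact p.Prime := ⟨hp⟩
  have : NeZero p := ⟨hp.ne_zero⟩
  have hflag : ∀ u v u' v' : ZMod p × ZMod p × ZMod p, flag u + flag v = flag u' + flag v' →
      (flag u = flag u' ∧ flag v = flag v') ∨ (flag u = flag v' ∧ flag v = flag u') := by
    intro u v u' v' h
    have h1 := congrArg Prod.fst h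
    have h2 := congrArg Prod.snd h
    simp only [flag, Prod.mk_add_mk] at h1 h2
    have lt : ∀ x y : ZMod p × ZMod p, num x + num y < 2 * p ^ 2 := by
      intro x y
      have := num_lt x
      have := num_lt y
      omega
    have c1 := code_sum (lt _ _) (lt _ _) h1
    have c2 := code_sum (lt _ _) (lt _ _) h2
    simp only [num_inj.eq_iff, Prod.mk.injEq] at c1 c2
    obtain ⟨x, a, b⟩ := u
    obtain ⟨x', a', b'⟩ := v
    obtain ⟨y, c, d⟩ := u'
    obtain ⟨y', c', d'⟩ := v'
    simp only at c1 c2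
    rcases c1 with ⟨⟨e1, e2⟩, e3, e4⟩ | ⟨⟨e1, e2⟩, e3, e4⟩ <;>
      rcases c2 with ⟨⟨e5, e6⟩, e7, e8⟩ | ⟨⟨e5, e6⟩, e7, e8⟩
    · left
      subst e1 e3 e5 e6 e7 e8
      exact ⟨rfl, rfl⟩
    · -- same points, lines exchanged
      subst e1 e3 e5 e6 e7 e8
      have h3 : (a - a') * (x - x') = 0 := by linear_combination e2 + e4
      rcases mul_eq_zero.1 h3 with h | h
      · have : a = a' := sub_eq_zero.1 h
        subst this
        have : b = b' := by linear_combination e2
        subst this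
        left
        exact ⟨rfl, rfl⟩
      · have : x = x' := sub_eq_zero.1 h
        subst this
        right
        refine ⟨rfl, rfl⟩
    · subst e1 e3 e5 e6 e7 e8
      have h3 : (a - a') * (x - x') = 0 := by linear_combination e2 + e4
      rcases mul_eq_zero.1 h3 with h | h
      · have : a = a' := sub_eq_zero.1 h
        subst this
        have : b = b' := by linear_combination e2
        subst this
        right
        exact ⟨rfl, rfl⟩
      · have : x = x' := sub_eq_zero.1 h
        subst this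
        left
        refine ⟨rfl, rfl⟩
    · right
      subst e1 e3 e5 e6 e7 e8
      exact ⟨rfl, rfl⟩
  have hinj : Function.Injective (flag : ZMod p × ZMod p × ZMod p → ℤ × ℤ) := by
    intro u v h
    have h1 := num_inj (code_inj (congrArg Prod.fst h))
    have h2 := num_inj (code_inj (congrArg Prod.snd h))
    simp only [Prod.mk.injEq] at h1 h2
    exact Prod.ext h1.1 (Prod.ext h2.1 h2.2)
  have hcard2 : (univ : Finset (ZMod p × ZMod p)).card = p ^ 2 := by
    rw [card_univ, Fintype.card_prod, ZMod.card]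
    ring
  refine ⟨univ.image (flag (p := p)), ?_, ?_, ?_, ?_⟩
  · intro s t hs ht hsA htA hst
    obtain ⟨a, b, rfl⟩ := Multiset.card_eq_two.1 hs
    obtain ⟨c, d, rfl⟩ := Multiset.card_eq_two.1 ht
    have ha := hsA a (by simp)
    have hb := hsA b (by simp)
    have hc := htA c (by simp)
    have hd := htA d (by simp)
    rw [mem_coe] at ha hb hc hd
    obtain ⟨u, _, rfl⟩ := mem_image.1 ha
    obtain ⟨v, _, rfl⟩ := mem_image.1 hb
    obtain ⟨u', _, rfl⟩ := mem_image.1 hc
    obtain ⟨v', _, rfl⟩ := mem_image.1 hd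
    have hst' : flag u + flag v = flag u' + flag v' := by simpa using hst
    rcases hflag u v u' v' hst' with ⟨h1, h2⟩ | ⟨h1, h2⟩
    · rw [h1, h2]
    · rw [h1, h2]
      exact Multiset.pair_comm _ _
  · rw [card_image_of_injective _ hinj, card_univ, Fintype.card_prod, Fintype.card_prod, ZMod.card]
    ring
  · refine le_trans (card_le_card (t := (univ : Finset (ZMod p × ZMod p)).image
      fun x => ((code (2 * p ^ 2) (num x) : ℤ) : ℚ)) ?_) (card_image_le.trans hcard2.le)
    intro y hy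
    obtain ⟨z, hz, rfl⟩ := mem_image.1 hy
    obtain ⟨w, _, rfl⟩ := mem_image.1 hz
    refine mem_image.2 ⟨(w.1, w.2.1 * w.1 + w.2.2), mem_univ _, ?_⟩
    simp [val, flag]
  · refine le_trans (card_le_card (t := (univ : Finset (ZMod p × ZMod p)).image
      fun x => ((code (2 * p ^ 2) (num x) : ℤ) : ℚ)) ?_) (card_image_le.trans hcard2.le)
    intro y hy
    obtain ⟨z, hz, rfl⟩ := mem_image.1 hy
    obtain ⟨w, _, rfl⟩ := mem_image.1 hz
    refine mem_image.2 ⟨(w.2.1, w.2.2), mem_univ _, ?_⟩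
    simp [val, flag]

/-- **The arithmetic Kakeya conjecture for sets without short additive relations.** -/
theorem result :
    -- a set without relations is small if two projections are small
    (∀ r s : Option ℚ, r ≠ s → ∀ k : ℕ, 1 ≤ k → ∀ A : Finset (ℤ × ℤ),
      SumsDiffer k (A : Set (ℤ × ℤ)) →
        (A.card : ℝ) ≤ 4 * (larger r s A : ℝ) ^ (1 + 1 / (k : ℝ))) ∧
    -- `A` arbitrary, `D` a set of differences without relations
    (∀ r s : Option ℚ, r ≠ s → ∀ k : ℕ, 1 ≤ k → ∀ A : Finset (ℤ × ℤ), ∀ D : Finset ℚ,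
      D ⊆ proj (some (-1)) A → SumsDiffer k (D : Set ℚ) →
        (D.card : ℝ) ≤ 4 * (larger r s A : ℝ) ^ (1 + 1 / (k : ℝ))) ∧
    -- the inequality of the conjecture
    (∀ r s : Option ℚ, r ≠ s → ∀ ε : ℝ, 0 < ε → ε ≤ 1 → ∀ k : ℕ, 4 ≤ ε * k →
      ∀ A : Finset (ℤ × ℤ), ∀ D : Finset ℚ, D ⊆ proj (some (-1)) A → SumsDiffer k (D : Set ℚ) →
        ((proj (some (-1)) A).card : ℝ) ^ (1 - ε / 4) ≤ D.card →
          ((proj (some (-1)) A).card : ℝ) ≤ 7 * (larger r s A : ℝ) ^ (1 + ε)) ∧
    -- the exponent `3 / 2` for `k = 2` and two slopes is optimal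
    (∀ p : ℕ, p.Prime → ∃ A : Finset (ℤ × ℤ), SumsDiffer 2 (A : Set (ℤ × ℤ)) ∧
      A.card = p ^ 3 ∧ (proj (some 0) A).card ≤ p ^ 2 ∧ (proj none A).card ≤ p ^ 2) :=
  ⟨fun _ _ hrs _ hk A hA => main hrs hk A hA,
    fun _ _ hrs _ hk A D hDA hD => main' hrs hk A D hDA hD,
    fun _ _ hrs _ hε hε1 _ hk A D hDA hD hl => conj hrs hε hε1 hk A D hDA hD hl,
    fun p hp => sharp p hp⟩

end Pool.Agent.Results.MP_169869_co.FewRelations
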