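import Pool.Agent.Q247.RK.Main

set_option autoImplicit false

/-!
# The arithmetic Kakeya conjecture is a linear inequality on polynomially large subsets

For a set `D` of integers and a finite set `S` of slopes let `Lin S C D` be the *linear* inequality
`|π_{-1}(A)| ≤ C max (|π_∞(A)|, max_{r ∈ S} |π_r(A)|)` for all finite `A ⊂ ℤ × ℤ` with all differences
`x - y`, `(x, y) ∈ A`, in `D`.

* `Expo c`: with finitely many slopes `≠ -1`, `|π_{-1}(A)| ≤ max^c` for all `A` (the conjecture of Q1 is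
  `Expo (1 + ε)` for all `ε > 0`);
* `SomeSubset θ`: with finitely many slopes `≠ -1` and one `C`, every finite set `B` of integers has SOME
  subset `D` with `|D| ≥ |B|^θ` and `Lin S C D`;
* `MostSubsets θ`: with finitely many slopes `≠ -1`, for all `η` there is `C` such that for all finite `B`
  and `m ≤ |B|^θ` ALL BUT a proportion `|B|^(-η)` of the `m`-element subsets `D` of `B` have `Lin S C D`.

The thresholds of the three statements are the same: `Expo c → MostSubsets θ` for `θ < 1/c`,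
`MostSubsets θ → SomeSubset θ'` for `θ' < θ`, and `SomeSubset θ → Expo c` for `c > 1/θ`.  So Q1 holds if and
only if for every `θ < 1` every finite set of integers has some subset of at least `|B|^θ` elements for
which the inequality of the conjecture holds with the exponent one and a constant factor, and if and only
if this holds for almost all subsets of this size.
-/

namespace Pool.Agent.Results.MP_169869_co.LinearForm

open Finset Pool.Agent.Q247.RK

/-- The linear inequality for all finite `A ⊂ ℤ × ℤ` with differences in `D`. -/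
def Lin (S : Finset ℚ) (C : ℕ) (D : Finset ℤ) : Prop :=
  ∀ A : Finset (ℤ × ℤ), (∀ p ∈ A, p.1 - p.2 ∈ D) → (proj (-1) A).card ≤ C * big S A

/-- `|π_{-1}(A)| ≤ max^c` for all finite `A ⊂ ℤ × ℤ`, with finitely many slopes different from `-1`. -/
def Expo (c : ℝ) : Prop :=
  ∃ S : Finset ℚ, (-1 : ℚ) ∉ S ∧
    ∀ A : Finset (ℤ × ℤ), ((proj (-1) A).card : ℝ) ≤ (big S A : ℝ) ^ c

/-- Every finite set `B` of integers has a subset with at least `|B|^θ` elements for which the linear
inequality holds. -/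
def SomeSubset (θ : ℝ) : Prop :=
  ∃ S : Finset ℚ, (-1 : ℚ) ∉ S ∧ ∃ C : ℕ, ∀ B : Finset ℤ,
    ∃ D ⊆ B, (B.card : ℝ) ^ θ ≤ D.card ∧ Lin S C D

/-- The linear inequality holds for almost all subsets with at most `|B|^θ` elements of all finite sets
`B` of integers. -/
def MostSubsets (θ : ℝ) : Prop :=
  ∃ S : Finset ℚ, (-1 : ℚ) ∉ S ∧ ∀ η : ℝ, ∃ C : ℕ, ∀ (B : Finset ℤ) (m : ℕ),
    (m : ℝ) ≤ (B.card : ℝ) ^ θ →
      ({D : Finset ℤ | D ⊆ B ∧ D.card = m ∧ ¬ Lin S C D}.ncard : ℝ) ≤
        (B.card : ℝ) ^ (-η) * (B.card.choose m)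

lemma bad_eq (S : Finset ℚ) (B : Finset ℤ) (m C : ℕ) :
    {D : Finset ℤ | D ⊆ B ∧ D.card = m ∧ ¬ Lin S C D}.ncard = (Bad S B m C).card := by
  classical
  rw [← Set.ncard_coe_finset]
  congr 1
  ext D
  unfold Bad Lin
  simp only [Set.mem_ofPred_eq, Finset.coe_filter, Finset.mem_powersetCard, and_assoc]

theorem most_of_expo {c θ : ℝ} (hc : 1 ≤ c) (hθ : θ < 1 / c) (h : Expo c) : MostSubsets θ := by
  obtain ⟨S, hS, hA⟩ := h
  have hc0 : 0 < c := by linarith
  have hδ : 0 < 1 - c * θ := by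
    rw [lt_div_iff₀ hc0] at hθ
    linarith
  refine ⟨S, hS, fun η => ?_⟩
  obtain ⟨C, hC⟩ := transference hc hA (1 - c * θ) η hδ
  refine ⟨C, fun B m hm => ?_⟩
  rw [bad_eq]
  apply hC
  calc (m : ℝ) ^ c ≤ ((B.card : ℝ) ^ θ) ^ c :=
        Real.rpow_le_rpow (by positivity) hm (by linarith)
    _ = (B.card : ℝ) ^ (1 - (1 - c * θ)) := by
        rw [← Real.rpow_mul (by positivity)]
        congr 1
        ring

theorem card_proj_le {D : Finset ℤ} {A : Finset (ℤ × ℤ)} (h : ∀ p ∈ A, p.1 - p.2 ∈ D) :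
    (proj (-1) A).card ≤ D.card := by
  classical
  rw [card_diff]
  apply card_le_card
  intro z hz
  obtain ⟨p, hp, rfl⟩ := mem_image.1 hz
  exact h p hp

theorem one_le_big (S : Finset ℚ) {A : Finset (ℤ × ℤ)} (h : A.Nonempty) : 1 ≤ big S A := by
  unfold big
  refine le_max_of_le_left ?_
  rw [Nat.one_le_iff_ne_zero, Finset.card_ne_zero]
  exact h.image _

theorem lin_of_small (S : Finset ℚ) {D : Finset ℤ} {C : ℕ} (h : D.card ≤ C) : Lin S C D := by
  intro A hA
  rcases A.eq_empty_or_nonempty with rfl | hne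
  · simp [proj]
  · calc (proj (-1) A).card ≤ D.card := card_proj_le hA
      _ ≤ C * 1 := by omega
      _ ≤ C * big S A := Nat.mul_le_mul_left _ (one_le_big S hne)

theorem lin_mono {S : Finset ℚ} {C C' : ℕ} {D : Finset ℤ} (h : C ≤ C') (hD : Lin S C D) :
    Lin S C' D := fun A hA => (hD A hA).trans (Nat.mul_le_mul_right _ h)

theorem some_of_most {θ θ' : ℝ} (h0 : 0 < θ') (hθ : θ' < θ) (hθ1 : θ ≤ 1) (h : MostSubsets θ) :
    SomeSubset θ' := by
  classical
  obtain ⟨S, hS, hA⟩ := h
  obtain ⟨C, hC⟩ := hA 1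
  -- large sets
  obtain ⟨N₀, hN₀⟩ : ∃ N₀ : ℕ, ∀ N : ℕ, N₀ ≤ N → (N : ℝ) ^ θ' + 1 ≤ (N : ℝ) ^ θ := by
    have h2 := (tendsto_rpow_atTop (by linarith : 0 < θ - θ')).comp
      (tendsto_natCast_atTop_atTop (R := ℝ))
    obtain ⟨N₁, hN₁⟩ := Filter.eventually_atTop.1 (h2.eventually_ge_atTop (2 : ℝ))
    refine ⟨max N₁ 1, fun N hN => ?_⟩
    have h3 : (2 : ℝ) ≤ (N : ℝ) ^ (θ - θ') := hN₁ N (le_trans (le_max_left _ _) hN)
    have hN1 : (1 : ℝ) ≤ N := by exact_mod_cast le_trans (le_max_right _ _) hN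
    have h4 : (1 : ℝ) ≤ (N : ℝ) ^ θ' := Real.one_le_rpow hN1 h0.le
    calc (N : ℝ) ^ θ' + 1 ≤ (N : ℝ) ^ θ' * 2 := by linarith
      _ ≤ (N : ℝ) ^ θ' * (N : ℝ) ^ (θ - θ') := by gcongr
      _ = (N : ℝ) ^ θ := by
          rw [← Real.rpow_add (by linarith)]
          congr 1
          ring
  refine ⟨S, hS, max C (max N₀ 2), fun B => ?_⟩
  rcases Nat.lt_or_ge B.card (max N₀ 2) with hB | hB
  · refine ⟨B, Subset.rfl, ?_, lin_of_small S (le_trans hB.le (le_max_right _ _))⟩
    rcases Nat.eq_zero_or_pos B.card with h1 | h1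
    · rw [h1, Nat.cast_zero, Real.zero_rpow h0.ne']
    · have h2 : (1 : ℝ) ≤ B.card := by exact_mod_cast h1
      calc (B.card : ℝ) ^ θ' ≤ (B.card : ℝ) ^ (1 : ℝ) :=
            Real.rpow_le_rpow_of_exponent_le h2 (by linarith)
        _ = _ := Real.rpow_one _
  · have hN0 : N₀ ≤ B.card := le_trans (le_max_left _ _) hB
    have hN2 : 2 ≤ B.card := le_trans (le_max_right _ _) hB
    have hNr : (2 : ℝ) ≤ B.card := by exact_mod_cast hN2
    set m : ℕ := ⌈(B.card : ℝ) ^ θ'⌉₊ with hm
    have hm1 : (m : ℝ) ≤ (B.card : ℝ) ^ θ :=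
      ((Nat.ceil_lt_add_one (by positivity)).le).trans (hN₀ _ hN0)
    have hm2 : m ≤ B.card := by
      have : (m : ℝ) ≤ B.card := hm1.trans (by
        calc (B.card : ℝ) ^ θ ≤ (B.card : ℝ) ^ (1 : ℝ) :=
              Real.rpow_le_rpow_of_exponent_le (by linarith) hθ1
          _ = _ := Real.rpow_one _)
      exact_mod_cast this
    have h1 := hC B m hm1
    by_contra hcon
    push Not at hcon
    have h2 : {D : Finset ℤ | D ⊆ B ∧ D.card = m ∧ ¬ Lin S C D}.ncard = B.card.choose m := by
      rw [← card_powersetCard, ← Set.ncard_coe_finset]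
      congr 1
      ext D
      simp only [Set.mem_ofPred_eq, Finset.mem_coe, mem_powersetCard]
      constructor
      · rintro ⟨h3, h4, -⟩
        exact ⟨h3, h4⟩
      · rintro ⟨h3, h4⟩
        refine ⟨h3, h4, fun h5 => hcon D h3 ?_ (lin_mono (le_max_left _ _) h5)⟩
        rw [h4]
        exact Nat.le_ceil _
    rw [h2] at h1
    have h5 : (0 : ℝ) < (B.card.choose m : ℕ) := by exact_mod_cast Nat.choose_pos hm2
    have h6 : (B.card : ℝ) ^ (-(1 : ℝ)) < 1 :=
      Real.rpow_lt_one_of_one_lt_of_neg (by linarith) (by norm_num)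
    nlinarith

theorem big_mono_slopes {S T : Finset ℚ} (h : S ⊆ T) (A : Finset (ℤ × ℤ)) : big S A ≤ big T A := by
  unfold big
  exact max_le_max le_rfl (Finset.sup_mono h)

theorem big_mono (S : Finset ℚ) {A A' : Finset (ℤ × ℤ)} (h : A ⊆ A') : big S A ≤ big S A' := by
  unfold big
  refine max_le_max (card_le_card (image_subset_image h)) (Finset.sup_mono_fun fun r _ => ?_)
  exact card_le_card (image_subset_image h)

/-- With many slopes the largest projection of a small set has at least as many elements as the set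
of differences. -/
theorem exists_slopes (N : ℕ) : ∃ T : Finset ℚ, (-1 : ℚ) ∉ T ∧ ∀ A : Finset (ℤ × ℤ),
    (proj (-1) A).card ≤ N → (proj (-1) A).card ≤ big T A := by
  classical
  refine ⟨(range (N * N + 1)).image (fun n : ℕ => (n : ℚ)), ?_, fun A hA => ?_⟩
  · rw [mem_image]
    rintro ⟨n, -, hn⟩
    have : (0 : ℚ) ≤ n := Nat.cast_nonneg n
    linarith
  -- one point for each difference
  obtain ⟨A', hA', hinj, himg⟩ : ∃ A' ⊆ A, Set.InjOn (fun p : ℤ × ℤ => (p.1 : ℚ) + (-1) * (p.2 : ℚ)) A' ∧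
      proj (-1) A' = proj (-1) A := by
    have h1 : ∀ z ∈ proj (-1) A, ∃ p ∈ A, (p.1 : ℚ) + (-1) * (p.2 : ℚ) = z := fun z hz =>
      mem_image.1 hz
    choose! f hf hf' using h1
    refine ⟨(proj (-1) A).image f, ?_, ?_, ?_⟩
    · intro p hp
      obtain ⟨z, hz, rfl⟩ := mem_image.1 hp
      exact hf z hz
    · intro p hp q hq hpq
      simp only [coe_image, Set.mem_image, Finset.mem_coe] at hp hq
      obtain ⟨z, hz, rfl⟩ := hp
      obtain ⟨w, hw, rfl⟩ := hq
      simp only [hf' z hz, hf' w hw] at hpq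
      rw [hpq]
    · ext z
      constructor
      · intro hz
        obtain ⟨p, hp, rfl⟩ := mem_image.1 hz
        obtain ⟨w, hw, rfl⟩ := mem_image.1 hp
        rw [hf' w hw]
        exact hw
      · intro hz
        exact mem_image.2 ⟨f z, mem_image_of_mem _ hz, hf' z hz⟩
  have hcard : A'.card = (proj (-1) A).card := by
    rw [← himg]
    exact (card_image_of_injOn hinj).symm
  -- a slope which is injective on `A'`
  have hbad : ∃ r ∈ (range (N * N + 1)).image (fun n : ℕ => (n : ℚ)),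
      Set.InjOn (fun p : ℤ × ℤ => (p.1 : ℚ) + r * (p.2 : ℚ)) A' := by
    by_contra hcon
    push Not at hcon
    have h2 : ∀ r ∈ (range (N * N + 1)).image (fun n : ℕ => (n : ℚ)), ∃ x ∈ A' ×ˢ A',
        x.1 ≠ x.2 ∧ (x.1.1 : ℚ) + r * (x.1.2 : ℚ) = (x.2.1 : ℚ) + r * (x.2.2 : ℚ) := by
      intro r hr
      have h3 := hcon r hr
      unfold Set.InjOn at h3
      push Not at h3
      obtain ⟨p, hp, q, hq, h4, h5⟩ := h3
      exact ⟨(p, q), mem_product.2 ⟨hp, hq⟩, h5, h4⟩
    choose! g hg hg1 hg2 using h2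
    have h3 : ((range (N * N + 1)).image (fun n : ℕ => (n : ℚ))).card ≤ (A' ×ˢ A').card := by
      refine card_le_card_of_injOn g (fun r hr => hg r hr) ?_
      intro r hr r' hr' h
      have e1 := hg2 r hr
      have e2 := hg2 r' hr'
      have n1 := hg1 r hr
      have m1 := mem_product.1 (hg r hr)
      rw [← h] at e2
      have h4 : (r - r') * (((g r).1.2 : ℚ) - (g r).2.2) = 0 := by linarith
      rcases mul_eq_zero.1 h4 with h5 | h5
      · linarith
      · exfalso
        have h6 : ((g r).1.2 : ℚ) = (g r).2.2 := by linarith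
        have h7 : ((g r).1.1 : ℚ) = (g r).2.1 := by
          rw [h6] at e1
          linarith
        apply n1
        apply hinj m1.1 m1.2
        simp only [h6, h7]
    rw [card_image_of_injective _ Nat.cast_injective, card_range, card_product, hcard] at h3
    have := Nat.mul_le_mul hA hA
    omega
  obtain ⟨r, hr, hri⟩ := hbad
  calc (proj (-1) A).card = A'.card := hcard.symm
    _ = (proj r A').card := (card_image_of_injOn hri).symm
    _ ≤ (proj r A).card := card_le_card (image_subset_image hA')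
    _ ≤ _ := by
      unfold big
      exact le_max_of_le_right (Finset.le_sup (f := fun r => (proj r A).card) hr)

theorem expo_of_some {θ c : ℝ} (hθ0 : 0 < θ) (hθ1 : θ ≤ 1) (hc : 1 / θ < c) (h : SomeSubset θ) :
    Expo c := by
  classical
  obtain ⟨S, hS, C, hC⟩ := h
  have h1θ : 1 ≤ 1 / θ := by rwa [le_div_iff₀ hθ0, one_mul]
  have hc1 : 1 ≤ c := by linarith
  -- a bound for the number of differences
  have key : ∀ A : Finset (ℤ × ℤ),
      ((proj (-1) A).card : ℝ) ≤ ((C : ℝ) * big S A) ^ (1 / θ) := by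
    intro A
    obtain ⟨D, hDB, hD, hL⟩ := hC (A.image fun p => p.1 - p.2)
    rw [← card_diff] at hD
    have h1 : D.card ≤ C * big S A := by
      have h2 := hL (A.filter fun p => p.1 - p.2 ∈ D) (fun p hp => (mem_filter.1 hp).2)
      have h3 : ((A.filter fun p => p.1 - p.2 ∈ D).image fun p => p.1 - p.2) = D := by
        ext z
        constructor
        · intro hz
          obtain ⟨p, hp, rfl⟩ := mem_image.1 hz
          exact (mem_filter.1 hp).2
        · intro hz
          obtain ⟨p, hp, rfl⟩ := mem_image.1 (hDB hz)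
          exact mem_image.2 ⟨p, mem_filter.2 ⟨hp, hz⟩, rfl⟩
      rw [card_diff, h3] at h2
      exact h2.trans (Nat.mul_le_mul_left _ (big_mono S (filter_subset _ _)))
    have h4 : ((proj (-1) A).card : ℝ) ^ θ ≤ (C : ℝ) * big S A := by
      refine hD.trans ?_
      exact_mod_cast h1
    calc ((proj (-1) A).card : ℝ) = (((proj (-1) A).card : ℝ) ^ θ) ^ (1 / θ) := by
          rw [← Real.rpow_mul (by positivity), mul_one_div_cancel hθ0.ne', Real.rpow_one]
      _ ≤ _ := Real.rpow_le_rpow (by positivity) h4 (by positivity)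
  -- from `K₀` on the constant is absorbed
  obtain ⟨K₀, hK₀⟩ : ∃ K₀ : ℕ, ∀ K : ℕ, K₀ ≤ K → (C : ℝ) ^ (1 / θ) ≤ (K : ℝ) ^ (c - 1 / θ) := by
    have h2 := (tendsto_rpow_atTop (by linarith : 0 < c - 1 / θ)).comp
      (tendsto_natCast_atTop_atTop (R := ℝ))
    exact Filter.eventually_atTop.1 (h2.eventually_ge_atTop ((C : ℝ) ^ (1 / θ)))
  obtain ⟨T, hT, hTA⟩ := exists_slopes ⌈((C : ℝ) * K₀) ^ (1 / θ)⌉₊
  refine ⟨S ∪ T, ?_, fun A => ?_⟩
  · rw [mem_union]
    tauto
  rcases A.eq_empty_or_nonempty with rfl | hne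
  · simp only [proj, image_empty, card_empty, Nat.cast_zero]
    positivity
  have hb1 : (1 : ℝ) ≤ big (S ∪ T) A := by exact_mod_cast one_le_big _ hne
  rcases le_total K₀ (big S A) with hK | hK
  · have hpos : (0 : ℝ) < big S A := by
      have := one_le_big S hne
      exact_mod_cast this
    calc ((proj (-1) A).card : ℝ) ≤ ((C : ℝ) * big S A) ^ (1 / θ) := key A
      _ = (C : ℝ) ^ (1 / θ) * (big S A : ℝ) ^ (1 / θ) :=
          Real.mul_rpow (by positivity) (by positivity)
      _ ≤ (big S A : ℝ) ^ (c - 1 / θ) * (big S A : ℝ) ^ (1 / θ) := by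
          have := hK₀ _ hK
          gcongr
      _ = (big S A : ℝ) ^ c := by
          rw [← Real.rpow_add hpos]
          congr 1
          ring
      _ ≤ (big (S ∪ T) A : ℝ) ^ c := by
          apply Real.rpow_le_rpow (by positivity) _ (by linarith)
          exact_mod_cast big_mono_slopes subset_union_left A
  · have h1 : (proj (-1) A).card ≤ ⌈((C : ℝ) * K₀) ^ (1 / θ)⌉₊ := by
      have h2 : ((proj (-1) A).card : ℝ) ≤ ((C : ℝ) * K₀) ^ (1 / θ) := by
        refine (key A).trans ?_
        apply Real.rpow_le_rpow (by positivity) _ (by positivity)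
        have : (big S A : ℝ) ≤ K₀ := by exact_mod_cast hK
        gcongr
      exact_mod_cast h2.trans (Nat.le_ceil _)
    calc ((proj (-1) A).card : ℝ) ≤ big T A := by exact_mod_cast hTA A h1
      _ ≤ big (S ∪ T) A := by exact_mod_cast big_mono_slopes subset_union_right A
      _ = (big (S ∪ T) A : ℝ) ^ (1 : ℝ) := (Real.rpow_one _).symm
      _ ≤ _ := Real.rpow_le_rpow_of_exponent_le hb1 hc1

/-- The conjecture of Q1. -/
def ArithmeticKakeya : Prop := ∀ ε : ℝ, 0 < ε → Expo (1 + ε)

/-- The thresholds of the exponent inequality, of the linear inequality for some subset of `|B|^θ`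
elements, and of the linear inequality for almost all subsets of `|B|^θ` elements, are the same; in
particular the conjecture of Q1 holds if and only if for all `θ < 1` every finite set `B` of integers has
some subset `D` of at least `|B|^θ` elements such that the inequality of the conjecture holds with the
exponent one and a constant factor for all finite sets with differences in `D`, and if and only if this
holds for almost all subsets of at most `|B|^θ` elements. -/
theorem result :
    (∀ c θ : ℝ, 1 ≤ c → θ < 1 / c → Expo c → MostSubsets θ) ∧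
    (∀ θ θ' : ℝ, 0 < θ' → θ' < θ → θ ≤ 1 → MostSubsets θ → SomeSubset θ') ∧
    (∀ θ c : ℝ, 0 < θ → θ ≤ 1 → 1 / θ < c → SomeSubset θ → Expo c) ∧
    (ArithmeticKakeya ↔ ∀ θ : ℝ, 0 < θ → θ < 1 → SomeSubset θ) ∧
    (ArithmeticKakeya ↔ ∀ θ : ℝ, 0 < θ → θ < 1 → MostSubsets θ) := by
  have h1 : ArithmeticKakeya → ∀ θ : ℝ, 0 < θ → θ < 1 → MostSubsets θ := by
    intro h θ h0 h1
    -- `1 + ε < 1 / θ`
    have h2 : 1 < 1 / θ := by rwa [lt_div_iff₀ h0, one_mul]
    refine most_of_expo (c := 1 + (1 / θ - 1) / 2) (by linarith) ?_ (h _ (by linarith))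
    have h3 : 1 + (1 / θ - 1) / 2 < 1 / θ := by linarith
    calc θ = 1 / (1 / θ) := (one_div_one_div θ).symm
      _ < _ := one_div_lt_one_div_of_lt (by linarith) h3
  have h2 : (∀ θ : ℝ, 0 < θ → θ < 1 → MostSubsets θ) → ∀ θ : ℝ, 0 < θ → θ < 1 → SomeSubset θ := by
    intro h θ h0 h1
    exact some_of_most (θ := (θ + 1) / 2) h0 (by linarith) (by linarith)
      (h _ (by linarith) (by linarith))
  have h3 : (∀ θ : ℝ, 0 < θ → θ < 1 → SomeSubset θ) → ArithmeticKakeya := by
    intro h ε hε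
    have h4 : 0 < 1 / (1 + ε / 2) := by positivity
    have h5 : 1 / (1 + ε / 2) < 1 := by
      rw [div_lt_one (by positivity)]
      linarith
    refine expo_of_some h4 h5.le ?_ (h _ h4 h5)
    rw [one_div_one_div]
    linarith
  exact ⟨fun c θ => most_of_expo, fun θ θ' => some_of_most, fun θ c => expo_of_some,
    ⟨fun h => h2 (h1 h), h3⟩, ⟨h1, fun h => h3 (h2 h)⟩⟩

end Pool.Agent.Results.MP_169869_co.LinearForm
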