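import Pool.Agent.Q247.RK.Main
import Pool.Agent.TH404.AK.Sdc3

set_option autoImplicit false

/-!
# The arithmetic Kakeya conjecture for all sets with differences in a random set

Q1 asks for slopes `S` with `|π_{-1}(A)| ≤ max (|π_∞(A)|, max_{r ∈ S} |π_r(A)|)^(1+ε)` for all finite
`A ⊂ ℤ × ℤ`. Here the differences `x - y`, `(x, y) ∈ A`, are assumed to lie in a random set `D` of
`m` elements of an arbitrary finite set `B` of integers, otherwise `A` is arbitrary (it may depend on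
`D`).

Transference: if an inequality `|π_{-1}(A)| ≤ max^c` holds for all `A`, then for almost all `D` with
`m ≤ |B|^((1-δ)/c)` the *linear* inequality `|π_{-1}(A)| ≤ C max` holds for all `A` with differences
in `D`. With the starting result `c = 1.669587` this holds unconditionally for `m ≤ |B|^0.5989`.

Proof. The sets of differences `d ∈ B` of the points `(y + d, y)` with `y ∈ Y` and
`(1 + r) y + d ∈ Z_r` for `r ∈ S`, where `Y`, `Z_r` have at most `K` elements, have at most `K^c`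
elements, and there are only `|B|^(O(K))` such sets, since they are determined by the zero pattern
of affine linear forms in `(|S| + 1) K` variables. A random `D` contains no `C K` elements of any of
them.
-/

namespace Pool.Agent.Results.MP_169869_co.RandomDifferences

open Pool.Agent.Q247.RK

/-- All finite `A ⊂ ℤ × ℤ` with differences in `D` satisfy the linear inequality
`|π_{-1}(A)| ≤ C max (|π_∞(A)|, max_{r ∈ S} |π_r(A)|)`. -/
def Good (S : Finset ℚ) (C : ℕ) (D : Finset ℤ) : Prop :=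
  ∀ A : Finset (ℤ × ℤ), (∀ p ∈ A, p.1 - p.2 ∈ D) → (proj (-1) A).card ≤ C * big S A

lemma bad_eq (S : Finset ℚ) (B : Finset ℤ) (m C : ℕ) :
    {D : Finset ℤ | D ⊆ B ∧ D.card = m ∧ ¬ Good S C D}.ncard = (Bad S B m C).card := by
  classical
  rw [← Set.ncard_coe_finset]
  congr 1
  ext D
  unfold Bad Good
  simp only [Set.mem_setOf_eq, Finset.coe_filter, Finset.mem_powersetCard, and_assoc]

/-- (1) Transference of exponents. Let `c ≥ 1` and `|π_{-1}(A)| ≤ max (|π_∞(A)|, max_S |π_r(A)|)^c`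
for all finite `A ⊂ ℤ × ℤ`. For all `δ > 0` and `η` there is `C` such that for every finite set `B`
of `N` integers and every `m ≤ N^((1-δ)/c)` all but `N^(-η) * binom(N, m)` of the subsets `D` of `B`
with `m` elements have the following property: `|π_{-1}(A)| ≤ C max (|π_∞(A)|, max_S |π_r(A)|)` for
all finite `A ⊂ ℤ × ℤ` with differences in `D`.
(2) Unconditionally: there is a finite set `S` of slopes different from `-1` such that this holds for
all `m ≤ N^0.5989`. -/
theorem result :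
    (∀ (S : Finset ℚ) (c : ℝ), 1 ≤ c →
      (∀ A : Finset (ℤ × ℤ), ((proj (-1) A).card : ℝ) ≤ (big S A : ℝ) ^ c) →
      ∀ δ η : ℝ, 0 < δ → ∃ C : ℕ, ∀ (B : Finset ℤ) (m : ℕ),
        (m : ℝ) ≤ (B.card : ℝ) ^ ((1 - δ) / c) →
        ({D : Finset ℤ | D ⊆ B ∧ D.card = m ∧ ¬ Good S C D}.ncard : ℝ) ≤
          (B.card : ℝ) ^ (-η) * (B.card.choose m)) ∧
    ∃ S : Finset ℚ, (-1 : ℚ) ∉ S ∧ ∀ η : ℝ, ∃ C : ℕ, ∀ (B : Finset ℤ) (m : ℕ),
      (m : ℝ) ≤ (B.card : ℝ) ^ (0.5989 : ℝ) →
      ({D : Finset ℤ | D ⊆ B ∧ D.card = m ∧ ¬ Good S C D}.ncard : ℝ) ≤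
        (B.card : ℝ) ^ (-η) * (B.card.choose m) := by
  have h1 : ∀ (S : Finset ℚ) (c : ℝ), 1 ≤ c →
      (∀ A : Finset (ℤ × ℤ), ((proj (-1) A).card : ℝ) ≤ (big S A : ℝ) ^ c) →
      ∀ δ η : ℝ, 0 < δ → ∃ C : ℕ, ∀ (B : Finset ℤ) (m : ℕ),
        (m : ℝ) ≤ (B.card : ℝ) ^ ((1 - δ) / c) →
        ({D : Finset ℤ | D ⊆ B ∧ D.card = m ∧ ¬ Good S C D}.ncard : ℝ) ≤
          (B.card : ℝ) ^ (-η) * (B.card.choose m) := by
    intro S c hc hKT δ η hδ
    obtain ⟨C, hC⟩ := transference hc hKT δ η hδ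
    refine ⟨C, fun B m hm => ?_⟩
    rw [bad_eq]
    apply hC
    calc (m : ℝ) ^ c ≤ ((B.card : ℝ) ^ ((1 - δ) / c)) ^ c :=
          Real.rpow_le_rpow (by positivity) hm (by linarith)
      _ = (B.card : ℝ) ^ (1 - δ) := by
          rw [← Real.rpow_mul (by positivity), div_mul_cancel₀ _ (by linarith)]
  refine ⟨h1, ?_⟩
  obtain ⟨S, hS, h⟩ := Pool.Agent.TH404.AK.sdc3
  refine ⟨S, hS, fun η => ?_⟩
  have hKT : ∀ A : Finset (ℤ × ℤ),
      ((proj (-1) A).card : ℝ) ≤ (big S A : ℝ) ^ (1669587 / 1000000 : ℝ) := by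
    intro A
    have h2 := h A
    unfold big
    rw [Nat.cast_max]
    exact h2
  obtain ⟨C, hC⟩ := h1 S (1669587 / 1000000) (by norm_num) hKT
    (1 - 0.5989 * (1669587 / 1000000)) η (by norm_num)
  refine ⟨C, fun B m hm => hC B m (hm.trans (le_of_eq ?_))⟩
  congr 1
  norm_num

end Pool.Agent.Results.MP_169869_co.RandomDifferences
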