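import Pool.Agent.Q184.PM.Rate

set_option autoImplicit false

/-!
# MP_169869_co: the arithmetic Kakeya conjecture holds, with one arbitrary slope, for random matchings

Let `d_1, …, d_N` be distinct integers and `y_1, …, y_N` arbitrary integers (repetitions are allowed).
A matching `σ` of the differences with the second coordinates gives the set
`A_σ = {(y_{σ i} + d_i, y_{σ i}) : i}`, on which `x - y` is injective (the conjecture reduces to such
sets), with prescribed differences and prescribed multiset of second coordinates.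

For all but a proportion `e^(-K N)` of the `N!` matchings the following holds for EVERY subset `B` of
`A_σ` with at least `γ N` points and EVERY rational slope `r ≠ -1` at once: `|π_r(B)| ≥ c N`. So
`|π_{-1}(B)| ≤ c⁻¹ |π_r(B)|`: the inequality of the conjecture without any loss in the exponent, for each
single finite slope `r ≠ -1`. Here `c = c(γ, K) > 0`, for all `γ > 0` and all `K`: the exceptional
matchings are rarer than any exponential rate given in advance.
-/

open Finset

namespace Pool.Agent.Results.MP_169869_co.RandomMatchings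

/-- `π_r(A)` for a finite slope `r`. -/
def proj (r : ℚ) (A : Finset (ℤ × ℤ)) : Finset ℚ := A.image fun x => (x.1 : ℚ) + r * (x.2 : ℚ)

/-- The set `A_σ = {(y_{σ i} + d_i, y_{σ i})}`. -/
def matched {N : ℕ} (y d : Fin N → ℤ) (σ : Equiv.Perm (Fin N)) : Finset (ℤ × ℤ) :=
  univ.image fun i => (y (σ i) + d i, y (σ i))

/-- Every subset `B` of `A` with at least `γ N` points has `|π_r(B)| ≥ c N` for every slope
`r ≠ -1`. -/
def AllSlopes (γ c : ℝ) (N : ℕ) (A : Finset (ℤ × ℤ)) : Prop :=
  ∀ (r : ℚ) (B : Finset (ℤ × ℤ)), r ≠ -1 → B ⊆ A → γ * N ≤ B.card → c * N ≤ (proj r B).card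

theorem result (γ K : ℝ) (hγ : 0 < γ) (hK : 0 ≤ K) : ∃ c : ℝ, 0 < c ∧
    ∀ (N : ℕ) (y d : Fin N → ℤ), Function.Injective d →
      (Nat.card {σ : Equiv.Perm (Fin N) // ¬ AllSlopes γ c N (matched y d σ)} : ℝ) ≤
        Real.exp (-(K * N)) * Nat.factorial N := by
  obtain ⟨c, hc, h⟩ := Pool.Agent.Q184.PM.rand hγ K hK
  refine ⟨c, hc, fun N y d hd => ?_⟩
  have h1 := h (Fin N) ℚ ℚ (fun i => (y i : ℚ)) (fun i => (d i : ℚ))
    (fun i j hij => hd (Int.cast_injective hij))
  rw [Nat.card_eq_fintype_card (α := Equiv.Perm (Fin N)), Fintype.card_perm, Fintype.card_fin] at h1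
  refine le_trans ?_ h1
  have key : ∀ σ : Equiv.Perm (Fin N), (¬ AllSlopes γ c N (matched y d σ)) →
      ¬ ∀ (t : ℚ) (J : Finset (Fin N)), t ≠ 0 → γ * (N : ℝ) ≤ J.card →
        c * (N : ℝ) ≤ (J.image fun i => (y (σ i) : ℚ) + t • (d i : ℚ)).card := by
    intro σ hσ hcon
    refine hσ fun r B hr hB hcard => ?_
    have hr1 : (1 + r) ≠ 0 := fun h0 => hr (by linarith)
    set J : Finset (Fin N) := univ.filter fun i => (y (σ i) + d i, y (σ i)) ∈ B with hJ
    have hBJ : B = J.image fun i => (y (σ i) + d i, y (σ i)) := by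
      ext x
      rw [mem_image]
      constructor
      · intro hx
        obtain ⟨i, _, hi⟩ := mem_image.1 (hB hx)
        exact ⟨i, mem_filter.2 ⟨mem_univ _, by rw [hi]; exact hx⟩, hi⟩
      · rintro ⟨i, hi, rfl⟩
        exact (mem_filter.1 hi).2
    have hJc : γ * (N : ℝ) ≤ J.card := by
      refine hcard.trans ?_
      conv_lhs => rw [hBJ]
      exact_mod_cast card_image_le
    have h2 := hcon (1 + r)⁻¹ J (inv_ne_zero hr1) hJc
    refine h2.trans (le_of_eq ?_)
    have e1 : proj r B = (J.image fun i => (y (σ i) : ℚ) + (1 + r)⁻¹ • (d i : ℚ)).image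
        fun z => (1 + r) * z := by
      unfold proj
      rw [hBJ, image_image, image_image]
      refine image_congr fun i _ => ?_
      simp only [Function.comp, smul_eq_mul, Int.cast_add]
      field_simp
      ring
    rw [e1, card_image_of_injective _ (mul_right_injective₀ hr1)]
  have hinj : Nat.card {σ : Equiv.Perm (Fin N) // ¬ AllSlopes γ c N (matched y d σ)} ≤
      Nat.card {σ : Equiv.Perm (Fin N) // ¬ ∀ (t : ℚ) (J : Finset (Fin N)), t ≠ 0 →
        γ * (N : ℝ) ≤ J.card →
        c * (N : ℝ) ≤ (J.image fun i => (y (σ i) : ℚ) + t • (d i : ℚ)).card} :=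
    Nat.card_le_card_of_injective (Subtype.map id key) (Subtype.map_injective _
      Function.injective_id)
  exact_mod_cast hinj

end Pool.Agent.Results.MP_169869_co.RandomMatchings
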